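import Mathlib
import Pool.Agent.Helper901.Sey.TwoMain

set_option autoImplicit false
set_option linter.unusedSectionVars false

namespace Pool.Agent.Results.MP_c7ba3e_co.Complete

/-- A directed cycle of the digraph `G`: `len ≥ 2` distinct vertices indexed cyclically, each
dominating the next one. -/
structure DiCycle {V : Type} (G : Digraph V) where
  len : ℕ
  two_le : 2 ≤ len
  vert : ZMod len → V
  inj : Function.Injective vert
  adj : ∀ i, G.Adj (vert i) (vert (i + 1))

/-- The vertex set of a directed cycle. -/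
def DiCycle.support {V : Type} {G : Digraph V} (C : DiCycle G) : Set V := Set.range C.vert

/-- `G` is loopless and every vertex has exactly `k` out-neighbours and exactly `k`
in-neighbours. -/
def Diregular {V : Type} (G : Digraph V) (k : ℕ) : Prop :=
  (∀ v, ¬ G.Adj v v) ∧ (∀ v, Nat.card {w : V // G.Adj v w} = k) ∧
    ∀ v, Nat.card {u : V // G.Adj u v} = k

/-- There are `k` directed cycles through `v` such that any two of them share only `v`. -/
def OpenlyDisjointAt {V : Type} (G : Digraph V) (k : ℕ) (v : V) : Prop :=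
  ∃ C : Fin k → DiCycle G, (∀ i, v ∈ (C i).support) ∧
    ∀ i j, i ≠ j → (C i).support ∩ (C j).support = {v}

/-- Property (S): every nonempty finite `k`-diregular digraph has a vertex `v` and `k` directed
cycles through `v` that are openly disjoint at `v`. -/
def PropertyS (k : ℕ) : Prop :=
  ∀ (V : Type) [Finite V] [Nonempty V] (G : Digraph V), Diregular G k →
    ∃ v, OpenlyDisjointAt G k v

section Cycle
variable {V : Type} [Fintype V] [DecidableEq V]

/-- projection of the auxiliary type -/
def proj (v : V) (k : ℕ) : ({u : V // u ≠ v} ⊕ Fin k) → V :=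
  Sum.elim Subtype.val (fun _ => v)

theorem exists_cycle (G : Digraph V) (v : V) (k : ℕ)
    (τ : Equiv.Perm ({u : V // u ≠ v} ⊕ Fin k))
    (h1 : ∀ i, ∃ u, τ (Sum.inr i) = Sum.inl u ∧ G.Adj v u.1)
    (h2 : ∀ u, (∃ w, τ (Sum.inl u) = Sum.inl w ∧ (w = u ∨ G.Adj u.1 w.1)) ∨
      (∃ j, τ (Sum.inl u) = Sum.inr j ∧ G.Adj u.1 v)) (i : Fin k) :
    ∃ M : ℕ, (∀ n, 1 ≤ n → n < M → ∃ u, (τ ^ n) (Sum.inr i) = Sum.inl u) ∧
      ∃ C : DiCycle G, C.support = {w | ∃ n < M, proj v k ((τ ^ n) (Sum.inr i)) = w} ∧ 0 < M := by
  classical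
  set x : ℕ → ({u : V // u ≠ v} ⊕ Fin k) := fun n => (τ ^ n) (Sum.inr i) with hx
  have hx0 : x 0 = Sum.inr i := by simp [hx]
  have hxs : ∀ n, x (n + 1) = τ (x n) := by
    intro n
    simp only [hx]
    rw [pow_succ', Equiv.Perm.mul_apply]
  have hex : ∃ n, 1 ≤ n ∧ ∃ j, x n = Sum.inr j := by
    refine ⟨orderOf τ, orderOf_pos τ, i, ?_⟩
    simp [hx, pow_orderOf_eq_one]
  obtain ⟨M, ⟨hM1, jM, hjM⟩, hmin⟩ : ∃ M, (1 ≤ M ∧ ∃ j, x M = Sum.inr j) ∧
      ∀ n < M, ¬ (1 ≤ n ∧ ∃ j, x n = Sum.inr j) :=
    ⟨Nat.find hex, Nat.find_spec hex, fun n hn => Nat.find_min hex hn⟩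
  have hinl : ∀ n, 1 ≤ n → n < M → ∃ u, x n = Sum.inl u := by
    intro n hn hnM
    rcases hxn : x n with u | j
    · exact ⟨u, rfl⟩
    · exact absurd ⟨hn, j, hxn⟩ (hmin n hnM)
  have hM2 : 2 ≤ M := by
    by_contra hlt
    have : M = 1 := by omega
    obtain ⟨u, hu, _⟩ := h1 i
    rw [this] at hjM
    rw [show (1 : ℕ) = 0 + 1 from rfl, hxs, hx0, hu] at hjM
    cases hjM
  have hdist : ∀ a b, b < a → a < M → x a ≠ x b := by
    intro a b hba haM hab
    have e1 : x (a - b) = Sum.inr i := by
      have : (τ ^ b) (x (a - b)) = (τ ^ b) (Sum.inr i) := by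
        simp only [hx]
        rw [← Equiv.Perm.mul_apply, ← pow_add, show b + (a - b) = a by omega]
        exact hab
      exact (τ ^ b).injective this
    exact hmin (a - b) (by omega) ⟨by omega, i, e1⟩
  let f : ZMod M → V := fun j => proj v k (x j.val)
  haveI : NeZero M := ⟨by omega⟩
  have hval : ∀ j : ZMod M, j.val < M := fun j => ZMod.val_lt j
  have hpj : ∀ a b, a < M → b < M → proj v k (x a) = proj v k (x b) → a = b := by
    intro a b ha hb hab
    by_contra hne
    rcases Nat.eq_zero_or_pos a with rfl | ha0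
    · obtain ⟨u, hu⟩ := hinl b (by omega) hb
      rw [hx0, hu] at hab
      exact u.2 hab.symm
    · rcases Nat.eq_zero_or_pos b with rfl | hb0
      · obtain ⟨u, hu⟩ := hinl a (by omega) ha
        rw [hx0, hu] at hab
        exact u.2 hab
      · obtain ⟨u, hu⟩ := hinl a ha0 ha
        obtain ⟨w, hw⟩ := hinl b hb0 hb
        have huw : x a = x b := by
          rw [hu, hw] at hab ⊢
          congr 1
          exact Subtype.ext hab
        rcases lt_or_gt_of_ne hne with h | h
        · exact hdist b a h hb huw.symm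
        · exact hdist a b h ha huw
  have hadj : ∀ j : ZMod M, G.Adj (f j) (f (j + 1)) := by
    intro j
    have hj := hval j
    have hadd : (j + 1).val = (j.val + 1) % M := by
      rw [ZMod.val_add]
      have : Fact (1 < M) := ⟨by omega⟩
      rw [ZMod.val_one M]
    have hfj : f j = proj v k (x j.val) := rfl
    have hfj1 : f (j + 1) = proj v k (x (j + 1).val) := rfl
    rw [hfj, hfj1, hadd]
    by_cases hlast : j.val + 1 = M
    · rw [hlast, Nat.mod_self, hx0]
      obtain ⟨u, hu⟩ := hinl j.val (by omega) hj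
      rw [hu]
      have h3 : τ (Sum.inl u) = Sum.inr jM := by
        rw [← hu, ← hxs, hlast, hjM]
      rcases h2 u with ⟨w, hw, _⟩ | ⟨j', _, hadj⟩
      · rw [h3] at hw; cases hw
      · exact hadj
    · rw [Nat.mod_eq_of_lt (by omega)]
      obtain ⟨w, hw⟩ := hinl (j.val + 1) (by omega) (by omega)
      by_cases h0 : j.val = 0
      · obtain ⟨u, hu, hvu⟩ := h1 i
        have : x (j.val + 1) = Sum.inl u := by rw [hxs, h0, hx0, hu]
        rw [this, h0, hx0]
        exact hvu
      · obtain ⟨u, hu⟩ := hinl j.val (by omega) hj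
        have h3 : τ (Sum.inl u) = Sum.inl w := by rw [← hu, ← hxs, hw]
        rcases h2 u with ⟨w', hw', hc⟩ | ⟨j', hj', _⟩
        · rw [h3] at hw'
          have hww : w = w' := Sum.inl_injective hw'
          subst hww
          rcases hc with hc | hc
          · exfalso
            refine hdist (j.val + 1) j.val (by omega) (by omega) ?_
            rw [hw, hu, hc]
          · rw [hw, hu]; exact hc
        · rw [h3] at hj'; cases hj'
  refine ⟨M, hinl, ⟨M, hM2, f, ?_, hadj⟩, ?_, by omega⟩
  · intro a b hab
    exact ZMod.val_injective M (hpj a.val b.val (hval a) (hval b) hab)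
  · ext w
    constructor
    · rintro ⟨j, rfl⟩
      exact ⟨j.val, hval j, rfl⟩
    · rintro ⟨n, hn, rfl⟩
      refine ⟨(n : ZMod M), ?_⟩
      have : ((n : ℕ) : ZMod M).val = n := ZMod.val_cast_of_lt hn
      show proj v k (x ((n : ZMod M)).val) = _
      rw [this]

/-- Directed vertex Menger at a vertex. -/
theorem menger_sep (G : Digraph V) (hl : ∀ v, ¬ G.Adj v v) (k : ℕ) (v : V)
    (h : ∀ P Q : Finset V, v ∈ P → v ∈ Q → P ∩ Q = {v} →
      (∀ p ∈ P, ∀ q ∈ Q, ¬ G.Adj p q) → k ≤ (P ∪ Q)ᶜ.card) :
    OpenlyDisjointAt G k v := by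
  classical
  let X := {u : V // u ≠ v} ⊕ Fin k
  let t : X → Finset X := fun x => Finset.univ.filter fun y =>
    match x, y with
    | Sum.inl u, Sum.inl w => w = u ∨ G.Adj u.1 w.1
    | Sum.inl u, Sum.inr _ => G.Adj u.1 v
    | Sum.inr _, Sum.inl w => G.Adj v w.1
    | Sum.inr _, Sum.inr _ => False
  have hall : ∀ A : Finset X, A.card ≤ (A.biUnion t).card := by
    intro A
    -- left part
    let A1 : Finset V := Finset.univ.filter fun u => ∃ hu : u ≠ v, (Sum.inl ⟨u, hu⟩ : X) ∈ A
    let A2 : Finset (Fin k) := Finset.univ.filter fun i => (Sum.inr i : X) ∈ A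
    let B1 : Finset V := Finset.univ.filter fun w => ∃ hw : w ≠ v, (Sum.inl ⟨w, hw⟩ : X) ∈ A.biUnion t
    let B2 : Finset (Fin k) := Finset.univ.filter fun i => (Sum.inr i : X) ∈ A.biUnion t
    have hcard : ∀ Z : Finset X, Z.card =
        (Finset.univ.filter fun u : V => ∃ hu : u ≠ v, (Sum.inl ⟨u, hu⟩ : X) ∈ Z).card +
        (Finset.univ.filter fun i : Fin k => (Sum.inr i : X) ∈ Z).card := by
      intro Z
      have e2 : Z.card = Z.toLeft.card + Z.toRight.card :=
        (Finset.card_toLeft_add_card_toRight).symm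
      rw [e2]
      congr 1
      · have : (Finset.univ.filter fun u : V => ∃ hu : u ≠ v, (Sum.inl ⟨u, hu⟩ : X) ∈ Z) =
            Z.toLeft.map ⟨Subtype.val, Subtype.val_injective⟩ := by
          ext u
          simp only [Finset.mem_filter, Finset.mem_univ, true_and, Finset.mem_map,
            Finset.mem_toLeft, Function.Embedding.coeFn_mk, Subtype.exists, exists_and_right,
            exists_eq_right]
        rw [this, Finset.card_map]
      · congr 1
        ext i
        simp
    rw [hcard A, hcard (A.biUnion t)]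
    change A1.card + A2.card ≤ B1.card + B2.card
    have hA1v : v ∉ A1 := by simp [A1]
    have hA1B1 : A1 ⊆ B1 := by
      intro u hu
      simp only [A1, B1, Finset.mem_filter, Finset.mem_univ, true_and] at hu ⊢
      obtain ⟨hu, huA⟩ := hu
      refine ⟨hu, Finset.mem_biUnion.2 ⟨_, huA, ?_⟩⟩
      simp [t]
    by_cases hA2 : A2 = ∅
    · have := Finset.card_le_card hA1B1
      rw [hA2, Finset.card_empty]
      omega
    · obtain ⟨i0, hi0⟩ := Finset.nonempty_iff_ne_empty.2 hA2
      have hi0' : (Sum.inr i0 : X) ∈ A := by simpa [A2] using hi0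
      have hA2k : A2.card ≤ k := by
        have := Finset.card_le_univ A2
        simpa using this
      by_cases hR : ∃ u ∈ A1, G.Adj u v
      · obtain ⟨u, hu, huv⟩ := hR
        have hu' : ∃ hu : u ≠ v, (Sum.inl ⟨u, hu⟩ : X) ∈ A := by simpa [A1] using hu
        obtain ⟨hu1, hu2⟩ := hu'
        have hB2 : B2 = Finset.univ := by
          ext j
          simp only [B2, Finset.mem_filter, Finset.mem_univ, true_and, iff_true]
          refine Finset.mem_biUnion.2 ⟨_, hu2, ?_⟩
          simp [t, huv]
        have := Finset.card_le_card hA1B1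
        rw [hB2]
        simp only [Finset.card_univ, Fintype.card_fin]
        omega
      · push Not at hR
        let Q : Finset V := Finset.univ.filter fun w => w ∉ A1 ∧ (∀ u ∈ A1, ¬ G.Adj u w) ∧
          ¬ G.Adj v w
        have hk := h (insert v A1) Q (Finset.mem_insert_self _ _) (by
            simp only [Q, Finset.mem_filter, Finset.mem_univ, true_and]
            exact ⟨hA1v, hR, hl v⟩) (by
            ext w
            simp only [Finset.mem_inter, Finset.mem_insert, Finset.mem_singleton, Q,
              Finset.mem_filter, Finset.mem_univ, true_and]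
            constructor
            · rintro ⟨h1 | h1, h2, _⟩
              · exact h1
              · exact absurd h1 h2
            · rintro rfl
              exact ⟨Or.inl rfl, hA1v, hR, hl w⟩) (by
            intro p hp q hq
            simp only [Q, Finset.mem_filter, Finset.mem_univ, true_and] at hq
            rcases Finset.mem_insert.1 hp with rfl | hp
            · exact hq.2.2
            · exact hq.2.1 p hp)
        have hsub : A1 ∪ (insert v A1 ∪ Q)ᶜ ⊆ B1 := by
          intro w hw
          rcases Finset.mem_union.1 hw with hw | hw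
          · exact hA1B1 hw
          · simp only [Finset.mem_compl, Finset.mem_union, Finset.mem_insert, Q,
              Finset.mem_filter, Finset.mem_univ, true_and, not_or, not_and, not_forall] at hw
            obtain ⟨⟨hwv, hwA⟩, hw3⟩ := hw
            simp only [B1, Finset.mem_filter, Finset.mem_univ, true_and]
            refine ⟨hwv, ?_⟩
            by_cases hvw : G.Adj v w
            · refine Finset.mem_biUnion.2 ⟨_, hi0', ?_⟩
              simp [t, hvw]
            · have h4 : ¬ ∀ u ∈ A1, ¬ G.Adj u w := fun h5 => hw3 hwA h5 hvw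
              push Not at h4
              obtain ⟨u, hu, huw⟩ := h4
              have hu' : ∃ hu : u ≠ v, (Sum.inl ⟨u, hu⟩ : X) ∈ A := by simpa [A1] using hu
              obtain ⟨hu1, hu2⟩ := hu'
              refine Finset.mem_biUnion.2 ⟨_, hu2, ?_⟩
              simp [t, huw]
        have hdis : Disjoint A1 (insert v A1 ∪ Q)ᶜ := by
          rw [Finset.disjoint_left]
          intro w hw hw'
          simp only [Finset.mem_compl, Finset.mem_union, Finset.mem_insert, not_or] at hw'
          exact hw'.1.2 hw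
        have hc := Finset.card_le_card hsub
        rw [Finset.card_union_of_disjoint hdis] at hc
        omega
  obtain ⟨σ, hσinj, hσ⟩ := (Finset.all_card_le_biUnion_card_iff_exists_injective t).1 hall
  let τ : Equiv.Perm X := Equiv.ofBijective σ (Finite.injective_iff_bijective.1 hσinj)
  have hτ : ∀ x, τ x ∈ t x := hσ
  have h1 : ∀ i, ∃ u, τ (Sum.inr i) = Sum.inl u ∧ G.Adj v u.1 := by
    intro i
    have := hτ (Sum.inr i)
    rcases hx : τ (Sum.inr i) with u | j
    · rw [hx] at this
      simp only [t, Finset.mem_filter, Finset.mem_univ, true_and] at this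
      exact ⟨u, rfl, this⟩
    · rw [hx] at this
      simp [t] at this
  have h2 : ∀ u, (∃ w, τ (Sum.inl u) = Sum.inl w ∧ (w = u ∨ G.Adj u.1 w.1)) ∨
      (∃ j, τ (Sum.inl u) = Sum.inr j ∧ G.Adj u.1 v) := by
    intro u
    have := hτ (Sum.inl u)
    rcases hx : τ (Sum.inl u) with w | j
    · rw [hx] at this
      simp only [t, Finset.mem_filter, Finset.mem_univ, true_and] at this
      exact Or.inl ⟨w, rfl, this⟩
    · rw [hx] at this
      simp only [t, Finset.mem_filter, Finset.mem_univ, true_and] at this
      exact Or.inr ⟨j, rfl, this⟩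
  have hcyc := exists_cycle G v k τ h1 h2
  choose M hM C hC hpos using hcyc
  refine ⟨C, ?_, ?_⟩
  · intro i
    rw [hC]
    exact ⟨0, hpos i, by simp [proj]⟩
  · intro i j hij
    have key : ∀ i j, i ≠ j → ∀ a b, a < M i → b < M j → 1 ≤ b → b ≤ a →
        (τ ^ a) (Sum.inr i) ≠ (τ ^ b) (Sum.inr j) := by
      intro i j hij a b ha hb hb1 hba hab
      have e1 : (τ ^ (a - b)) (Sum.inr i) = Sum.inr j := by
        have : (τ ^ b) ((τ ^ (a - b)) (Sum.inr i)) = (τ ^ b) (Sum.inr j) := by
          rw [← Equiv.Perm.mul_apply, ← pow_add, show b + (a - b) = a by omega]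
          exact hab
        exact (τ ^ b).injective this
      by_cases h0 : a - b = 0
      · rw [h0] at e1
        simp only [pow_zero, Equiv.Perm.one_apply] at e1
        exact hij (Sum.inr_injective e1)
      · obtain ⟨u, hu⟩ := hM i (a - b) (by omega) (by omega)
        rw [e1] at hu
        cases hu
    rw [hC, hC]
    ext w
    simp only [Set.mem_inter_iff, Set.mem_ofPred_eq, Set.mem_singleton_iff]
    constructor
    · rintro ⟨⟨a, ha, ha'⟩, ⟨b, hb, hb'⟩⟩
      by_contra hwv
      have ha1 : 1 ≤ a := by
        rcases Nat.eq_zero_or_pos a with rfl | h0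
        · exact absurd (by simpa [proj] using ha'.symm) hwv
        · exact h0
      have hb1 : 1 ≤ b := by
        rcases Nat.eq_zero_or_pos b with rfl | h0
        · exact absurd (by simpa [proj] using hb'.symm) hwv
        · exact h0
      obtain ⟨u, hu⟩ := hM i a ha1 ha
      obtain ⟨u', hu'⟩ := hM j b hb1 hb
      have heq : (τ ^ a) (Sum.inr i) = (τ ^ b) (Sum.inr j) := by
        rw [hu, hu']
        rw [hu] at ha'
        rw [hu'] at hb'
        congr 1
        exact Subtype.ext (ha'.trans hb'.symm)
      rcases le_total b a with hab | hab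
      · exact key i j hij a b ha hb hb1 hab heq
      · exact key j i hij.symm b a hb ha ha1 hab heq.symm
    · rintro rfl
      exact ⟨⟨0, hpos i, by simp [proj]⟩, ⟨0, hpos j, by simp [proj]⟩⟩

end Cycle

section Sey

variable {V : Type} [Fintype V] [DecidableEq V]

/-- A vertex without `k` openly disjoint cycles has a separation of order `< k`. -/
theorem bad_of_not (G : Digraph V) (hl : ∀ v, ¬ G.Adj v v) (k : ℕ) (v : V)
    (h : ¬ OpenlyDisjointAt G k v) : ∃ P Q : Finset V, v ∈ P ∧ v ∈ Q ∧ P ∩ Q = {v} ∧
      (∀ p ∈ P, ∀ q ∈ Q, ¬ G.Adj p q) ∧ ((P ∪ Q)ᶜ).card + 1 ≤ k := by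
  by_contra hcon
  push Not at hcon
  apply h
  apply menger_sep G hl k v
  intro P Q hP hQ hPQ harc
  have := hcon P Q hP hQ hPQ harc
  omega

end Sey

open Pool.Agent.Helper901.Sey in
/-- Reduction of property (S) to separations. -/
theorem property_of (k : ℕ)
    (hmain : ∀ (V : Type) [Fintype V] [DecidableEq V] (G : V → V → Prop), (∀ v, ¬ G v v) →
      (∀ v, (nb G v).card = k ∧ (nb (rev G) v).card = k) →
      (∀ v, ∃ P Q : Finset V, v ∈ P ∧ v ∈ Q ∧ P ∩ Q = {v} ∧
        (∀ p ∈ P, ∀ q ∈ Q, ¬ G p q) ∧ ((P ∪ Q)ᶜ).card + 1 ≤ k) → Nonempty V → False) :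
    PropertyS k := by
  intro V _ hne G hG
  classical
  letI : Fintype V := Fintype.ofFinite V
  by_contra hcon
  push Not at hcon
  refine hmain V G.Adj hG.1 (fun v => ⟨?_, ?_⟩) (fun v => bad_of_not G hG.1 k v (hcon v)) hne
  · rw [← hG.2.1 v, Nat.card_eq_fintype_card, Fintype.card_subtype]
    rfl
  · rw [← hG.2.2 v, Nat.card_eq_fintype_card, Fintype.card_subtype]
    rfl

/-- `2` has property (S). -/
theorem property_two : PropertyS 2 := by
  apply property_of
  intro V _ _ G hl hreg hbad hne
  refine Pool.Agent.Helper901.Sey.two_main G hl hreg (fun v => ?_)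
  obtain ⟨P, Q, h1, h2, h3, h4, h5⟩ := hbad v
  exact ⟨P, Q, h1, h2, h3, h4, by omega⟩

/-- `4` has property (S). -/
theorem property_four : PropertyS 4 := by
  apply property_of
  intro V _ _ G hl hreg hbad hne
  refine Pool.Agent.Helper901.Sey.reduce G hl hreg (fun v => ?_) hne
  obtain ⟨P, Q, h1, h2, h3, h4, h5⟩ := hbad v
  refine ⟨P, Q, h1, h2, fun x hx hx' => ?_, h4, by omega⟩
  have : x ∈ P ∩ Q := Finset.mem_inter.2 ⟨hx, hx'⟩
  rw [h3, Finset.mem_singleton] at this
  exact this

/-- If `v` cannot return to itself without meeting `T`, then every cycle through `v` meets `T`. -/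
theorem hits {V : Type} (G : Digraph V) (v : V) (A T : Finset V) (hvA : v ∉ A)
    (hstep : ∀ u, (u = v ∨ u ∈ A) → ∀ w, G.Adj u w → w ∈ A ∨ w ∈ T)
    (C : DiCycle G) (hv : v ∈ C.support) : ∃ t ∈ T, t ∈ C.support := by
  by_contra hcon
  push Not at hcon
  obtain ⟨i0, hi0⟩ := hv
  have hT : ∀ i, C.vert i ∉ T := fun i hi => hcon _ hi ⟨i, rfl⟩
  have key : ∀ m : ℕ, C.vert (i0 + (m : ZMod C.len) + 1) ∈ A := by
    intro m
    induction m with
    | zero =>
      have h1 := C.adj i0
      rcases hstep _ (Or.inl hi0) _ h1 with h | h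
      · simpa using h
      · exact absurd h (hT _)
    | succ m ih =>
      have h1 := C.adj (i0 + (m : ZMod C.len) + 1)
      rcases hstep _ (Or.inr ih) _ h1 with h | h
      · have e : i0 + ((m + 1 : ℕ) : ZMod C.len) + 1 = i0 + (m : ZMod C.len) + 1 + 1 := by
          push_cast
          ring
        rw [e]
        exact h
      · exact absurd h (hT _)
  have h2 := key (C.len - 1)
  have e : i0 + ((C.len - 1 : ℕ) : ZMod C.len) + 1 = i0 := by
    have h3 : ((C.len - 1 : ℕ) : ZMod C.len) + 1 = 0 := by
      have h4 : ((C.len - 1 + 1 : ℕ) : ZMod C.len) = 0 := by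
        have h5 : C.len - 1 + 1 = C.len := by
          have := C.two_le
          omega
        rw [h5]
        exact ZMod.natCast_self _
      push_cast at h4
      exact h4
    rw [add_assoc, h3, add_zero]
  rw [e, hi0] at h2
  exact hvA h2

/-- A small separator at `v` excludes `k` openly disjoint cycles at `v`. -/
theorem no_openly_disjoint {V : Type} (G : Digraph V) (k : ℕ) (v : V) (A T : Finset V)
    (hvA : v ∉ A) (hvT : v ∉ T)
    (hstep : ∀ u, (u = v ∨ u ∈ A) → ∀ w, G.Adj u w → w ∈ A ∨ w ∈ T)
    (hcard : T.card < k) : ¬ OpenlyDisjointAt G k v := by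
  rintro ⟨C, hC, hdis⟩
  have h : ∀ i, ∃ t ∈ T, t ∈ (C i).support := fun i => hits G v A T hvA hstep (C i) (hC i)
  choose f hfT hfC using h
  have hinj : Function.Injective f := by
    intro i j hij
    by_contra hne
    have hmem : f i ∈ (C i).support ∩ (C j).support := ⟨hfC i, by rw [hij]; exact hfC j⟩
    rw [hdis i j hne] at hmem
    have : f i = v := hmem
    exact hvT (this ▸ hfT i)
  have hle : (Finset.univ : Finset (Fin k)).card ≤ T.card :=
    Finset.card_le_card_of_injOn f (fun i _ => hfT i) (fun a _ b _ h => hinj h)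
  simp at hle
  omega

/-- The digraph on `Fin n` whose out-neighbourhoods are given by bit masks. -/
def ofMasks (n : ℕ) (out : Fin n → ℕ) : Digraph (Fin n) :=
  { Adj := fun u w => (out u).testBit w.val = true }

instance (n : ℕ) (out : Fin n → ℕ) : DecidableRel (ofMasks n out).Adj :=
  fun u w => inferInstanceAs (Decidable ((out u).testBit w.val = true))

def bits (n m : ℕ) : Finset (Fin n) := Finset.univ.filter fun w => m.testBit w.val = true

/-- The certificate check. -/
def good (n k : ℕ) (out A T : Fin n → ℕ) : Prop :=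
  (∀ v : Fin n, (out v).testBit v.val = false) ∧
  (∀ v : Fin n, (bits n (out v)).card = k) ∧
  (∀ v : Fin n, (Finset.univ.filter fun u : Fin n => (out u).testBit v.val = true).card = k) ∧
  (∀ v : Fin n, (A v).testBit v.val = false) ∧
  (∀ v : Fin n, (T v).testBit v.val = false) ∧
  (∀ v : Fin n, (bits n (T v)).card < k) ∧
  (∀ v u : Fin n, (u = v ∨ (A v).testBit u.val = true) →
    (out u) &&& (A v ||| T v) = out u)

instance (n k : ℕ) (out A T : Fin n → ℕ) : Decidable (good n k out A T) := by
  unfold good
  infer_instance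

theorem not_property_of_good (n k : ℕ) (hn : 0 < n) (out A T : Fin n → ℕ)
    (h : good n k out A T) : ¬ PropertyS k := by
  obtain ⟨h1, h2, h3, h4, h5, h6, h7⟩ := h
  have hreg : Diregular (ofMasks n out) k := by
    refine ⟨fun v hv => ?_, fun v => ?_, fun v => ?_⟩
    · have hv' : (out v).testBit v.val = true := hv
      have h9 := h1 v
      rw [hv'] at h9
      exact Bool.noConfusion h9
    · rw [← h2 v, Nat.card_eq_fintype_card, Fintype.card_subtype]
      rfl
    · rw [← h3 v, Nat.card_eq_fintype_card, Fintype.card_subtype]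
      rfl
  intro hS
  have : Nonempty (Fin n) := ⟨⟨0, hn⟩⟩
  obtain ⟨v, hv⟩ := hS (Fin n) (ofMasks n out) hreg
  refine no_openly_disjoint (ofMasks n out) k v (bits n (A v)) (bits n (T v)) ?_ ?_ ?_ (h6 v) hv
  · simp [bits, h4 v]
  · simp [bits, h5 v]
  · intro u hu w huw
    have hu' : u = v ∨ (A v).testBit u.val = true := by
      rcases hu with hu | hu
      · exact Or.inl hu
      · exact Or.inr (by simpa [bits] using hu)
    have h8 := h7 v u hu'
    have h9 : (out u).testBit w.val = true := huw
    rw [← h8] at h9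
    rw [Nat.testBit_and, Nat.testBit_or] at h9
    simp only [Bool.and_eq_true, Bool.or_eq_true] at h9
    rcases h9.2 with h10 | h10
    · exact Or.inl (by simpa [bits] using h10)
    · exact Or.inr (by simpa [bits] using h10)

def out6 : Fin 24 → ℕ := ![1051552, 1574028, 2673, 2611, 2977, 1118, 1422, 1358, 2737, 1146, 2645,
  1103, 12189952, 4768128, 10948608, 10694656, 12193792, 4579328, 5824512, 5562368, 11210752,
  4694016, 10833920, 4517888]

def A6 : Fin 24 → ℕ := ![16773120, 16773120, 16773393, 16773393, 16773121, 16773314, 16773122,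
  3628, 3628, 16773346, 16773397, 16773314, 4095, 4095, 1122303, 1122303, 8191, 798719, 12287,
  14860288, 14860288, 929791, 1138687, 798719]

def T6 : Fin 24 → ℕ := ![2976, 1420, 2784, 2722, 2976, 1308, 1420, 339, 211, 1308, 2784, 1293,
  12189696, 5816320, 11403264, 11149312, 12189696, 5357568, 5816320, 1388544, 864256, 5357568,
  11403264, 5296128]

def out7 : Fin 24 → ℕ := ![9831944, 9963744, 658656, 1398, 3430, 1881, 1821, 2591, 1567, 2531,
  671, 671, 6326624, 9308544, 13500576, 5726208, 14049280, 7704576, 7458816, 10612736, 6418432,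
  10366976, 2748416, 2748416]

def A7 : Fin 24 → ℕ := ![16744448, 16773120, 16773120, 16773142, 16773126, 3520, 3456, 376, 3200,
  16773122, 2176, 1384, 4088, 4095, 4095, 94207, 28671, 14417920, 14155776, 1540096, 13107200,
  12287, 8912896, 5668864]

def T7 : Fin 24 → ℕ := ![30216, 2528, 3552, 3552, 3552, 543, 543, 3591, 543, 2529, 543, 663,
  6324231, 10354688, 14548992, 14548992, 14548992, 2224128, 2224128, 14708736, 2224128, 10358784,
  2224128, 2715648]

def out5 : Fin 34 → ℕ := ![589846, 28744, 65619, 34592, 26690, 20872, 14472, 34592, 34340, 558116, 2472, 73809, 34568,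
  65619, 73747, 23168, 22657, 8592818180, 3767533568, 8600813568, 4534042624, 3498311680,
  2735734784, 1896873984, 4534042624, 4501012480, 4433903620, 324009984, 9674293248,
  4530896896, 8600813568, 9666166784, 3036676096, 2969698304]

def A5 : Fin 34 → ℕ := ![17179738112, 17179777000, 130298, 17179738880, 17179777002, 17179830359, 17179776936,
  17179738880, 17179738624, 17179738112, 17179830391, 17179746309, 17179738888, 17179738117,
  17179746309, 17179830359, 17179776936, 131071, 5097259007, 17078419456, 100794367,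
  5097521151, 12091129855, 5088870399, 100794367, 67239935, 131071, 12095324159, 1074528255,
  101842943, 786431, 1074528255, 12091129855, 5088870399]

def T5 : Fin 34 → ℕ := ![65558, 26628, 769, 33828, 26628, 4488, 26628, 33828, 33828, 33828, 4488, 65618, 33828,
  65618, 65618, 4744, 18437, 8592818176, 3490185216, 100794368, 4433903616, 3490185216,
  588251136, 3490185216, 4433903616, 4433903616, 4433903616, 588251136, 8600682496,
  4433903616, 8600682496, 8600682496, 621805568, 2416574464]

theorem good5 : good 34 5 out5 A5 T5 := by decide +kernel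

theorem good6 : good 24 6 out6 A6 T6 := by decide +kernel

theorem good7 : good 24 7 out7 A7 T7 := by decide +kernel

/-- Among the open values `2, 4, 5, 6, 7` exactly `2` and `4` have property (S). -/
theorem result (k : ℕ) (hk : k = 2 ∨ k = 4 ∨ k = 5 ∨ k = 6 ∨ k = 7) : PropertyS k ↔ k ≤ 4 := by
  rcases hk with rfl | rfl | rfl | rfl | rfl
  · exact ⟨fun _ => by norm_num, fun _ => property_two⟩
  · exact ⟨fun _ => le_rfl, fun _ => property_four⟩
  · exact ⟨fun h => absurd h (not_property_of_good 34 5 (by norm_num) out5 A5 T5 good5),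
      fun h => absurd h (by norm_num)⟩
  · exact ⟨fun h => absurd h (not_property_of_good 24 6 (by norm_num) out6 A6 T6 good6),
      fun h => absurd h (by norm_num)⟩
  · exact ⟨fun h => absurd h (not_property_of_good 24 7 (by norm_num) out7 A7 T7 good7),
      fun h => absurd h (by norm_num)⟩

end Pool.Agent.Results.MP_c7ba3e_co.Complete
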