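import Mathlib

set_option autoImplicit false

namespace Pool.Agent.Results.MP_c7ba3e_co.SixSeven

/-- A directed cycle of the digraph `G`: `len ≥ 2` distinct vertices indexed cyclically, each
dominating the next one. -/
structure DiCycle {V : Type} (G : Digraph V) where
  len : ℕ
  two_le : 2 ≤ len
  vert : ZMod len → V
  inj : Function.Injective vert
  adj : ∀ i, G.Adj (vert i) (vert (i + 1))

/-- The vertex set of a directed cycle. -/
def DiCycle.support {V : Type} {G : Digraph V} (C : DiCycle G) : Set V := Set.range C.vert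

/-- `G` is loopless and every vertex has exactly `k` out-neighbours and exactly `k`
in-neighbours. -/
def Diregular {V : Type} (G : Digraph V) (k : ℕ) : Prop :=
  (∀ v, ¬ G.Adj v v) ∧ (∀ v, Nat.card {w : V // G.Adj v w} = k) ∧
    ∀ v, Nat.card {u : V // G.Adj u v} = k

/-- There are `k` directed cycles through `v` such that any two of them share only `v`. -/
def OpenlyDisjointAt {V : Type} (G : Digraph V) (k : ℕ) (v : V) : Prop :=
  ∃ C : Fin k → DiCycle G, (∀ i, v ∈ (C i).support) ∧
    ∀ i j, i ≠ j → (C i).support ∩ (C j).support = {v}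

/-- Property (S): every nonempty finite `k`-diregular digraph has a vertex `v` and `k` directed
cycles through `v` that are openly disjoint at `v`. -/
def PropertyS (k : ℕ) : Prop :=
  ∀ (V : Type) [Finite V] [Nonempty V] (G : Digraph V), Diregular G k →
    ∃ v, OpenlyDisjointAt G k v

/-- If `v` cannot return to itself without meeting `T`, then every cycle through `v` meets `T`. -/
theorem hits {V : Type} (G : Digraph V) (v : V) (A T : Finset V) (hvA : v ∉ A)
    (hstep : ∀ u, (u = v ∨ u ∈ A) → ∀ w, G.Adj u w → w ∈ A ∨ w ∈ T)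
    (C : DiCycle G) (hv : v ∈ C.support) : ∃ t ∈ T, t ∈ C.support := by
  by_contra hcon
  push Not at hcon
  obtain ⟨i0, hi0⟩ := hv
  have hT : ∀ i, C.vert i ∉ T := fun i hi => hcon _ hi ⟨i, rfl⟩
  have key : ∀ m : ℕ, C.vert (i0 + (m : ZMod C.len) + 1) ∈ A := by
    intro m
    induction m with
    | zero =>
      have h1 := C.adj i0
      rcases hstep _ (Or.inl hi0) _ h1 with h | h
      · simpa using h
      · exact absurd h (hT _)
    | succ m ih =>
      have h1 := C.adj (i0 + (m : ZMod C.len) + 1)
      rcases hstep _ (Or.inr ih) _ h1 with h | h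
      · have e : i0 + ((m + 1 : ℕ) : ZMod C.len) + 1 = i0 + (m : ZMod C.len) + 1 + 1 := by
          push_cast
          ring
        rw [e]
        exact h
      · exact absurd h (hT _)
  have h2 := key (C.len - 1)
  have e : i0 + ((C.len - 1 : ℕ) : ZMod C.len) + 1 = i0 := by
    have h3 : ((C.len - 1 : ℕ) : ZMod C.len) + 1 = 0 := by
      have h4 : ((C.len - 1 + 1 : ℕ) : ZMod C.len) = 0 := by
        have h5 : C.len - 1 + 1 = C.len := by
          have := C.two_le
          omega
        rw [h5]
        exact ZMod.natCast_self _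
      push_cast at h4
      exact h4
    rw [add_assoc, h3, add_zero]
  rw [e, hi0] at h2
  exact hvA h2

/-- A small separator at `v` excludes `k` openly disjoint cycles at `v`. -/
theorem no_openly_disjoint {V : Type} (G : Digraph V) (k : ℕ) (v : V) (A T : Finset V)
    (hvA : v ∉ A) (hvT : v ∉ T)
    (hstep : ∀ u, (u = v ∨ u ∈ A) → ∀ w, G.Adj u w → w ∈ A ∨ w ∈ T)
    (hcard : T.card < k) : ¬ OpenlyDisjointAt G k v := by
  rintro ⟨C, hC, hdis⟩
  have h : ∀ i, ∃ t ∈ T, t ∈ (C i).support := fun i => hits G v A T hvA hstep (C i) (hC i)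
  choose f hfT hfC using h
  have hinj : Function.Injective f := by
    intro i j hij
    by_contra hne
    have hmem : f i ∈ (C i).support ∩ (C j).support := ⟨hfC i, by rw [hij]; exact hfC j⟩
    rw [hdis i j hne] at hmem
    have : f i = v := hmem
    exact hvT (this ▸ hfT i)
  have hle : (Finset.univ : Finset (Fin k)).card ≤ T.card :=
    Finset.card_le_card_of_injOn f (fun i _ => hfT i) (fun a _ b _ h => hinj h)
  simp at hle
  omega

/-- The digraph on `Fin n` whose out-neighbourhoods are given by bit masks. -/
def ofMasks (n : ℕ) (out : Fin n → ℕ) : Digraph (Fin n) :=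
  { Adj := fun u w => (out u).testBit w.val = true }

instance (n : ℕ) (out : Fin n → ℕ) : DecidableRel (ofMasks n out).Adj :=
  fun u w => inferInstanceAs (Decidable ((out u).testBit w.val = true))

def bits (n m : ℕ) : Finset (Fin n) := Finset.univ.filter fun w => m.testBit w.val = true

/-- The certificate check. -/
def good (n k : ℕ) (out A T : Fin n → ℕ) : Prop :=
  (∀ v : Fin n, (out v).testBit v.val = false) ∧
  (∀ v : Fin n, (bits n (out v)).card = k) ∧
  (∀ v : Fin n, (Finset.univ.filter fun u : Fin n => (out u).testBit v.val = true).card = k) ∧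
  (∀ v : Fin n, (A v).testBit v.val = false) ∧
  (∀ v : Fin n, (T v).testBit v.val = false) ∧
  (∀ v : Fin n, (bits n (T v)).card < k) ∧
  (∀ v u : Fin n, (u = v ∨ (A v).testBit u.val = true) →
    (out u) &&& (A v ||| T v) = out u)

instance (n k : ℕ) (out A T : Fin n → ℕ) : Decidable (good n k out A T) := by
  unfold good
  infer_instance

theorem not_property_of_good (n k : ℕ) (hn : 0 < n) (out A T : Fin n → ℕ)
    (h : good n k out A T) : ¬ PropertyS k := by
  obtain ⟨h1, h2, h3, h4, h5, h6, h7⟩ := h
  have hreg : Diregular (ofMasks n out) k := by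
    refine ⟨fun v hv => ?_, fun v => ?_, fun v => ?_⟩
    · have hv' : (out v).testBit v.val = true := hv
      have h9 := h1 v
      rw [hv'] at h9
      exact Bool.noConfusion h9
    · rw [← h2 v, Nat.card_eq_fintype_card, Fintype.card_subtype]
      rfl
    · rw [← h3 v, Nat.card_eq_fintype_card, Fintype.card_subtype]
      rfl
  intro hS
  have : Nonempty (Fin n) := ⟨⟨0, hn⟩⟩
  obtain ⟨v, hv⟩ := hS (Fin n) (ofMasks n out) hreg
  refine no_openly_disjoint (ofMasks n out) k v (bits n (A v)) (bits n (T v)) ?_ ?_ ?_ (h6 v) hv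
  · simp [bits, h4 v]
  · simp [bits, h5 v]
  · intro u hu w huw
    have hu' : u = v ∨ (A v).testBit u.val = true := by
      rcases hu with hu | hu
      · exact Or.inl hu
      · exact Or.inr (by simpa [bits] using hu)
    have h8 := h7 v u hu'
    have h9 : (out u).testBit w.val = true := huw
    rw [← h8] at h9
    rw [Nat.testBit_and, Nat.testBit_or] at h9
    simp only [Bool.and_eq_true, Bool.or_eq_true] at h9
    rcases h9.2 with h10 | h10
    · exact Or.inl (by simpa [bits] using h10)
    · exact Or.inr (by simpa [bits] using h10)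

def out6 : Fin 24 → ℕ := ![1051552, 1574028, 2673, 2611, 2977, 1118, 1422, 1358, 2737, 1146, 2645,
  1103, 12189952, 4768128, 10948608, 10694656, 12193792, 4579328, 5824512, 5562368, 11210752,
  4694016, 10833920, 4517888]

def A6 : Fin 24 → ℕ := ![16773120, 16773120, 16773393, 16773393, 16773121, 16773314, 16773122,
  3628, 3628, 16773346, 16773397, 16773314, 4095, 4095, 1122303, 1122303, 8191, 798719, 12287,
  14860288, 14860288, 929791, 1138687, 798719]

def T6 : Fin 24 → ℕ := ![2976, 1420, 2784, 2722, 2976, 1308, 1420, 339, 211, 1308, 2784, 1293,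
  12189696, 5816320, 11403264, 11149312, 12189696, 5357568, 5816320, 1388544, 864256, 5357568,
  11403264, 5296128]

def out7 : Fin 24 → ℕ := ![9831944, 9963744, 658656, 1398, 3430, 1881, 1821, 2591, 1567, 2531,
  671, 671, 6326624, 9308544, 13500576, 5726208, 14049280, 7704576, 7458816, 10612736, 6418432,
  10366976, 2748416, 2748416]

def A7 : Fin 24 → ℕ := ![16744448, 16773120, 16773120, 16773142, 16773126, 3520, 3456, 376, 3200,
  16773122, 2176, 1384, 4088, 4095, 4095, 94207, 28671, 14417920, 14155776, 1540096, 13107200,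
  12287, 8912896, 5668864]

def T7 : Fin 24 → ℕ := ![30216, 2528, 3552, 3552, 3552, 543, 543, 3591, 543, 2529, 543, 663,
  6324231, 10354688, 14548992, 14548992, 14548992, 2224128, 2224128, 14708736, 2224128, 10358784,
  2224128, 2715648]

theorem good6 : good 24 6 out6 A6 T6 := by decide +kernel

theorem good7 : good 24 7 out7 A7 T7 := by decide +kernel

/-- Neither 6 nor 7 has property (S). -/
theorem result (k : ℕ) (hk : k = 6 ∨ k = 7) : ¬ PropertyS k := by
  rcases hk with rfl | rfl
  · exact not_property_of_good 24 6 (by norm_num) out6 A6 T6 good6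
  · exact not_property_of_good 24 7 (by norm_num) out7 A7 T7 good7

end Pool.Agent.Results.MP_c7ba3e_co.SixSeven
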